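import Mathlib

namespace Pool.Agent.H.MP_32f763_nt

def cl (p q : ℕ) : List ℕ :=
  if h : q = 0 ∨ p < q then []
  else if p = 2 ^ Nat.log 2 (p / q) * q then [Nat.log 2 (p / q)]
  else Nat.log 2 (p / q) :: cl (2 ^ Nat.log 2 (p / q) * q) (p - 2 ^ Nat.log 2 (p / q) * q)
termination_by p + q
decreasing_by
  have hq : 0 < q := by omega
  have h1 : 0 < p / q := Nat.div_pos (by omega) hq
  have h2 : 2 ^ Nat.log 2 (p / q) ≤ p / q := Nat.pow_log_le_self 2 (by omega)
  have h3 : 2 ^ Nat.log 2 (p / q) * q ≤ p :=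
    (Nat.mul_le_mul_right q h2).trans (Nat.div_mul_le_self p q)
  omega

def len (p q : ℕ) : ℕ := (cl p q).length

lemma log_eq {k q r : ℕ} (hq : 0 < q) (hr : r < 2 ^ k * q) : Nat.log 2 ((2 ^ k * q + r) / q) = k := by
  apply Nat.log_eq_of_pow_le_of_lt_pow
  · rw [Nat.le_div_iff_mul_le hq]; omega
  · rw [Nat.div_lt_iff_lt_mul hq, pow_succ]; nlinarith

lemma len_end (k : ℕ) {q : ℕ} (hq : 0 < q) : len (2 ^ k * q) q = 1 := by
  have h0 : 0 < 2 ^ k := by positivity
  have h1 := log_eq (k := k) (r := 0) hq (by positivity)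
  rw [add_zero] at h1
  unfold len
  rw [cl, dif_neg (by have := Nat.le_mul_of_pos_left q h0; omega), h1, if_pos rfl]
  rfl

lemma len_step (k : ℕ) {q r : ℕ} (hq : 0 < q) (hr0 : 0 < r) (hr : r < 2 ^ k * q) :
    len (2 ^ k * q + r) q = 1 + len (2 ^ k * q) r := by
  have h0 : 0 < 2 ^ k := by positivity
  unfold len
  rw [cl, dif_neg (by have := Nat.le_mul_of_pos_left q h0; omega), log_eq hq hr,
    if_neg (by omega), Nat.add_sub_cancel_left, List.length_cons, add_comm]

lemma len_step' (k : ℕ) {p q p' r : ℕ} (hq : 0 < q) (hr0 : 0 < r) (h1 : p' = 2 ^ k * q)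
    (hr : r < p') (h2 : p = p' + r) : len p q = 1 + len p' r := by
  subst h1 h2
  exact len_step k hq hr0 hr

lemma len_bad {p q : ℕ} (h : q = 0 ∨ p < q) : len p q = 0 := by
  unfold len
  rw [cl, dif_pos h]
  rfl

lemma decomp {p q : ℕ} (hq : 0 < q) (hp : q ≤ p) :
    ∃ k r, p = 2 ^ k * q + r ∧ r < 2 ^ k * q := by
  have h1 : 0 < p / q := Nat.div_pos hp hq
  have h2 : 2 ^ Nat.log 2 (p / q) ≤ p / q := Nat.pow_log_le_self 2 (by omega)
  have h3 : 2 ^ Nat.log 2 (p / q) * q ≤ p :=
    (Nat.mul_le_mul_right q h2).trans (Nat.div_mul_le_self p q)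
  have h4 : p / q < 2 ^ (Nat.log 2 (p / q) + 1) := Nat.lt_pow_succ_log_self (by norm_num) _
  rw [Nat.div_lt_iff_lt_mul hq, pow_succ] at h4
  refine ⟨Nat.log 2 (p / q), p - 2 ^ Nat.log 2 (p / q) * q, by omega, ?_⟩
  have : 2 ^ Nat.log 2 (p / q) * 2 * q = 2 * (2 ^ Nat.log 2 (p / q) * q) := by ring
  omega

lemma len_scale (c : ℕ) (hc : 0 < c) : ∀ N p q, p + q ≤ N → len (c * p) (c * q) = len p q := by
  intro N
  induction N with
  | zero =>
    intro p q h
    rw [len_bad (Or.inl (by simp; omega)), len_bad (Or.inl (by omega))]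
  | succ N ih =>
    intro p q h
    by_cases hb : q = 0 ∨ p < q
    · rw [len_bad hb, len_bad]
      rcases hb with rfl | hb
      · simp
      · exact Or.inr (Nat.mul_lt_mul_of_pos_left hb hc)
    · obtain ⟨k, r, rfl, hr⟩ := decomp (p := p) (q := q) (by omega) (by omega)
      have hq : 0 < q := by omega
      rcases Nat.eq_zero_or_pos r with rfl | hr0
      · rw [add_zero, len_end k hq, mul_left_comm, len_end k (by positivity)]
      · rw [len_step k hq hr0 hr, ← ih (2 ^ k * q) r (by omega)]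
        exact len_step' k (by positivity) (by positivity) (by ring)
          (Nat.mul_lt_mul_of_pos_left hr hc) (by ring)

lemma len_mul (c : ℕ) (hc : 0 < c) (p q : ℕ) : len (c * p) (c * q) = len p q :=
  len_scale c hc _ p q le_rfl

lemma len_le : ∀ m p q, p < 2 ^ m → len p q ≤ 3 * m := by
  intro m
  induction m with
  | zero =>
    intro p q h
    rw [len_bad (by omega)]
  | succ m ih =>
    have two : ∀ k q r, 0 < q → 0 < r → r < 2 ^ (k + 1) * q → 2 ^ (k + 1) * q + r < 2 ^ (m + 1) →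
        len (2 ^ (k + 1) * q) r ≤ 3 * m + 1 := by
      intro k q r hq hr0 hr hp
      obtain ⟨k', r', h1, h2⟩ := decomp hr0 hr.le
      rcases Nat.eq_zero_or_pos r' with rfl | hr'
      · rw [h1, add_zero, len_end k' hr0]; omega
      · rw [h1, len_step k' hr0 hr' h2]
        cases k' with
        | zero =>
          have := ih (2 ^ 0 * r) r' (by rw [pow_succ 2 m] at hp; omega)
          omega
        | succ k' =>
          have e1 : 2 ^ (k' + 1) * r = 2 * (2 ^ k' * r) := by ring
          have e2 : 2 ^ (k + 1) * q = 2 * (2 ^ k * q) := by ring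
          obtain ⟨r2, rfl⟩ : ∃ r2, r' = 2 * r2 := ⟨2 ^ k * q - 2 ^ k' * r, by omega⟩
          rw [e1, len_mul 2 (by norm_num)]
          have := ih (2 ^ k' * r) r2 (by rw [pow_succ 2 m] at hp; omega)
          omega
    intro p q hp
    by_cases hb : q = 0 ∨ p < q
    · rw [len_bad hb]; omega
    obtain ⟨k, r, rfl, hr⟩ := decomp (p := p) (q := q) (by omega) (by omega)
    have hq : 0 < q := by omega
    rcases Nat.eq_zero_or_pos r with rfl | hr0
    · rw [add_zero, len_end k hq]; omega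
    rw [len_step k hq hr0 hr]
    cases k with
    | succ k =>
      have := two k q r hq hr0 hr hp
      omega
    | zero =>
      obtain ⟨k', r', h1, h2⟩ := decomp hr0 hr.le
      rcases Nat.eq_zero_or_pos r' with rfl | hr'
      · rw [h1, add_zero, len_end k' hr0]; omega
      · rw [h1, len_step k' hr0 hr' h2]
        cases k' with
        | zero =>
          have := ih (2 ^ 0 * r) r' (by rw [pow_succ 2 m] at hp; omega)
          omega
        | succ k' =>
          have := two k' r r' hr0 hr' h2 (by omega)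
          omega

lemma len_pos {p q : ℕ} (hq : 0 < q) (hp : q ≤ p) : 1 ≤ len p q := by
  obtain ⟨k, r, rfl, hr⟩ := decomp hq hp
  rcases Nat.eq_zero_or_pos r with rfl | hr0
  · rw [add_zero, len_end k hq]
  · rw [len_step k hq hr0 hr]; omega

lemma len_one {n : ℕ} (h : len n 1 = 1) : ∃ j, n = 2 ^ j := by
  have hn : 1 ≤ n := by
    by_contra h1
    rw [len_bad (by omega)] at h
    omega
  obtain ⟨k, r, rfl, hr⟩ := decomp (q := 1) (by norm_num) hn
  rcases Nat.eq_zero_or_pos r with rfl | hr0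
  · exact ⟨k, by simp⟩
  · rw [len_step k (by norm_num) hr0 hr] at h
    have := len_pos hr0 hr.le
    omega

/-- binary digit sum -/
def s (n : ℕ) : ℕ := (Nat.digits 2 n).sum

lemma s_two_mul (n : ℕ) : s (2 * n) = s n := by
  rcases Nat.eq_zero_or_pos n with rfl | h
  · rfl
  · unfold s
    rw [Nat.digits_def' (by norm_num) (by omega)]
    simp

lemma s_odd (n : ℕ) : s (2 * n + 1) = s n + 1 := by
  unfold s
  rw [Nat.digits_def' (by norm_num) (by omega)]
  have h1 : (2 * n + 1) % 2 = 1 := by omega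
  have h2 : (2 * n + 1) / 2 = n := by omega
  rw [h1, h2, List.sum_cons, add_comm]

lemma s_succ (n : ℕ) : s (n + 1) ≤ s n + 1 := by
  induction n using Nat.strong_induction_on with
  | _ n ih =>
    obtain ⟨m, rfl | rfl⟩ := Nat.even_or_odd' n
    · rw [s_odd, s_two_mul]
    · have := ih m (by omega)
      rw [show 2 * m + 1 + 1 = 2 * (m + 1) by ring, s_two_mul, s_odd]
      omega

lemma s_add : ∀ N a b, a + b ≤ N → s (a + b) ≤ s a + s b := by
  intro N
  induction N with
  | zero =>
    intro a b h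
    obtain rfl : a = 0 := by omega
    simp
  | succ N ih =>
    intro a b h
    rcases Nat.eq_zero_or_pos (a + b) with h0 | h0
    · rw [h0]; exact Nat.zero_le _
    obtain ⟨x, rfl | rfl⟩ := Nat.even_or_odd' a <;> obtain ⟨y, rfl | rfl⟩ := Nat.even_or_odd' b <;>
      have := ih x y (by omega)
    · rw [← mul_add, s_two_mul, s_two_mul, s_two_mul]; exact this
    · rw [show 2 * x + (2 * y + 1) = 2 * (x + y) + 1 by ring, s_odd, s_odd, s_two_mul]; omega
    · rw [show 2 * x + 1 + 2 * y = 2 * (x + y) + 1 by ring, s_odd, s_odd, s_two_mul]; omega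
    · rw [show 2 * x + 1 + (2 * y + 1) = 2 * (x + y + 1) by ring, s_odd, s_odd, s_two_mul]
      have := s_succ (x + y)
      omega

lemma s_pow_mul (k n : ℕ) : s (2 ^ k * n) = s n := by
  induction k with
  | zero => simp
  | succ k ih => rw [pow_succ', mul_assoc, s_two_mul, ih]

lemma s_ones (j M : ℕ) (h : M + 1 = 2 ^ j) : s M = j := by
  induction j generalizing M with
  | zero =>
    obtain rfl : M = 0 := by omega
    rfl
  | succ j ih =>
    have h0 : 0 < 2 ^ j := by positivity
    obtain ⟨M', rfl⟩ : ∃ M', M = 2 * M' + 1 := ⟨2 ^ j - 1, by rw [pow_succ] at h; omega⟩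
    rw [s_odd, ih M' (by rw [pow_succ] at h; omega)]

lemma s_one : s 1 = 1 := s_ones 1 1 (by norm_num)

lemma s_le : ∀ N p q, p + q ≤ N → 0 < q → q ≤ p → (∀ π, π.Prime → π ∣ p → π ∣ q → π = 2) →
    s p ≤ 2 ^ len p q ∧ s q ≤ 2 ^ len p q := by
  intro N
  induction N with
  | zero => intro p q h hq; omega
  | succ N ih =>
    intro p q h hq hp hc
    obtain ⟨k, r, rfl, hr⟩ := decomp hq hp
    rcases Nat.eq_zero_or_pos r with rfl | hr0
    · have h1 := Nat.eq_prime_pow_of_unique_prime_dvd hq.ne'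
        (p := 2) (fun {d} hd hdq => hc d hd (by rw [add_zero]; exact hdq.mul_left _) hdq)
      have h2 : s q = 1 := by
        rw [h1, ← mul_one (2 ^ _), s_pow_mul, s_one]
      rw [add_zero, len_end k hq, s_pow_mul, h2]
      norm_num
    · obtain ⟨h1, h2⟩ := ih (2 ^ k * q) r (by omega) hr0 hr.le (by
        intro π hπ h1 h2
        rcases (Nat.Prime.dvd_mul hπ).1 h1 with h3 | h3
        · exact (Nat.prime_dvd_prime_iff_eq hπ Nat.prime_two).1 (hπ.dvd_of_dvd_pow h3)
        · exact hc π hπ (dvd_add h1 h2) h3)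
      have h3 := s_add _ (2 ^ k * q) r le_rfl
      rw [len_step k hq hr0 hr, pow_add]
      rw [s_pow_mul] at h1 h3
      omega

lemma len_ones (j : ℕ) : ∀ M, M + 1 = 2 ^ (j + 2) → ∀ i, len (2 ^ i * M) 1 = 2 * j + 2 := by
  have aux : ∀ j M, M + 1 = 2 ^ (j + 2) → ∀ i, len (2 ^ i * M) 1 = 1 + len (2 ^ (j + 1)) (M - 2 ^ (j + 1)) := by
    intro j M hM i
    have h0 : 0 < 2 ^ j := by positivity
    have e1 : 2 ^ (j + 2) = 4 * 2 ^ j := by ring
    have e2 : 2 ^ (j + 1) = 2 * 2 ^ j := by ring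
    rw [← len_mul (2 ^ i) (by positivity) (2 ^ (j + 1))]
    refine len_step' (i + (j + 1)) (by norm_num) (Nat.mul_pos (by positivity) (by omega)) (by ring)
      (Nat.mul_lt_mul_of_pos_left (by omega) (by positivity)) ?_
    rw [← mul_add]
    congr 1
    omega
  induction j with
  | zero =>
    intro M hM i
    rw [aux 0 M hM i]
    obtain rfl : M = 3 := by omega
    have := len_end 1 (q := 1) (by norm_num)
    norm_num at this ⊢
    omega
  | succ j ih =>
    intro M hM i
    rw [aux _ M hM i]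
    have h0 : 0 < 2 ^ j := by positivity
    have e1 : 2 ^ (j + 1 + 2) = 8 * 2 ^ j := by ring
    have e2 : 2 ^ (j + 1 + 1) = 4 * 2 ^ j := by ring
    have e3 : 2 ^ (j + 2) = 4 * 2 ^ j := by ring
    have h1 := ih (M - 2 ^ (j + 1 + 1)) (by omega) 0
    rw [len_step' 0 (p' := M - 2 ^ (j + 1 + 1)) (r := 1) (by omega) (by norm_num) (by simp)
      (by omega) (by omega)]
    rw [pow_zero, one_mul] at h1
    omega

end Pool.Agent.H.MP_32f763_nt
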