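import Mathlib

namespace Pool.Agent.H.MP_32f763_nt

open Polynomial

section
variable {K : Type} [Field K]

def sh (K : Type) [Field K] : Module.End K (ℕ → K) where
  toFun w := fun t => w (t + 1)
  map_add' _ _ := rfl
  map_smul' _ _ := rfl

lemma sh_pow (n : ℕ) (w : ℕ → K) (t : ℕ) : (sh K ^ n) w t = w (t + n) := by
  induction n generalizing w with
  | zero => rfl
  | succ n ih =>
    rw [pow_succ, Module.End.mul_apply, ih]
    rfl

lemma aeval_sh (f : K[X]) (w : ℕ → K) (t : ℕ) :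
    aeval (sh K) f w t = ∑ i ∈ Finset.range (f.natDegree + 1), f.coeff i * w (t + i) := by
  rw [aeval_eq_sum_range, LinearMap.sum_apply, Finset.sum_apply]
  refine Finset.sum_congr rfl fun i _ => ?_
  rw [LinearMap.smul_apply, Pi.smul_apply, sh_pow, smul_eq_mul]

def Gr (w : ℕ → K) : Prop := ∀ φ : K →+* ℂ, ∃ C : ℝ, ∀ t : ℕ, ‖φ (w t)‖ ≤ C * (t + 1)

lemma Gr.aeval {w : ℕ → K} (h : Gr w) (f : K[X]) : Gr (aeval (sh K) f w) := by
  intro φ
  obtain ⟨C, hC⟩ := h φ
  have hC0 : 0 ≤ C := by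
    have := hC 0
    have h2 := norm_nonneg (φ (w 0))
    simp only [Nat.cast_zero, zero_add, mul_one] at this
    linarith
  refine ⟨∑ i ∈ Finset.range (f.natDegree + 1), ‖φ (f.coeff i)‖ * (C * (i + 1)), fun t => ?_⟩
  rw [aeval_sh, map_sum, Finset.sum_mul]
  refine (norm_sum_le _ _).trans (Finset.sum_le_sum fun i _ => ?_)
  rw [map_mul, norm_mul, mul_assoc]
  refine mul_le_mul_of_nonneg_left ((hC _).trans ?_) (norm_nonneg _)
  rw [mul_assoc]
  refine mul_le_mul_of_nonneg_left ?_ hC0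
  push_cast
  have h1 : (0 : ℝ) ≤ i := Nat.cast_nonneg i
  have h2 : (0 : ℝ) ≤ t := Nat.cast_nonneg t
  nlinarith [mul_nonneg h1 h2]

lemma geom_zero {a c C : ℝ} (ha : 1 < a) (hc : 0 ≤ c) (h : ∀ t : ℕ, a ^ t * c ≤ C * (t + 1)) :
    c = 0 := by
  by_contra hne
  have hc' : 0 < c := lt_of_le_of_ne hc (Ne.symm hne)
  have h1 := tendsto_pow_const_div_const_pow_of_one_lt 1 ha
  have h2 := tendsto_pow_const_div_const_pow_of_one_lt 0 ha
  have h3 := (h1.add h2).const_mul C
  rw [add_zero, mul_zero] at h3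
  obtain ⟨t, ht⟩ := (h3.eventually (gt_mem_nhds hc')).exists
  have h4 := h t
  have h5 : 0 < a ^ t := by positivity
  rw [pow_one, pow_zero, ← add_div, ← mul_div_assoc, div_lt_iff₀ h5] at ht
  linarith

lemma bad_one {w : ℕ → K} (h : Gr w) {z : K} (hz : ∃ φ : K →+* ℂ, 1 < ‖φ z‖)
    (h0 : aeval (sh K) (X - C z) w = 0) : w = 0 := by
  obtain ⟨φ, hφ⟩ := hz
  obtain ⟨C, hC⟩ := h φ
  have h1 : ∀ t, w (t + 1) = z * w t := by
    intro t
    have := congrFun h0 t
    simp only [map_sub, aeval_X, aeval_C, LinearMap.sub_apply, Pi.sub_apply, Pi.zero_apply,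
      Module.algebraMap_end_apply, Pi.smul_apply, smul_eq_mul] at this
    exact sub_eq_zero.1 this
  have h2 : ∀ t, w t = z ^ t * w 0 := by
    intro t
    induction t with
    | zero => simp
    | succ t ih => rw [h1, ih]; ring
  have h3 : ‖φ (w 0)‖ = 0 := geom_zero (C := C) hφ (norm_nonneg _) (fun t => by
    have := hC t
    rwa [h2 t, map_mul, map_pow, norm_mul, norm_pow] at this)
  have h4 : w 0 = 0 := by simpa using h3
  funext t
  rw [h2 t, h4, mul_zero]
  rfl

lemma bad_all (R : Multiset K) (hR : ∀ z ∈ R, ∃ φ : K →+* ℂ, 1 < ‖φ z‖) {w : ℕ → K} (h : Gr w)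
    (h0 : aeval (sh K) (R.map (X - C ·)).prod w = 0) : w = 0 := by
  induction R using Multiset.induction_on with
  | empty => simpa using h0
  | cons z R ih =>
    rw [Multiset.map_cons, Multiset.prod_cons, map_mul, Module.End.mul_apply] at h0
    exact ih (fun y hy => hR y (Multiset.mem_cons_of_mem hy))
      (bad_one (h.aeval _) (hR z (Multiset.mem_cons_self _ _)) h0)

lemma common (R : Multiset K) (hR : ∀ z ∈ R, z = 0 ∨ ∃ n, 0 < n ∧ z ^ n = 1) :
    ∃ P, 0 < P ∧ ∀ z ∈ R, z = 0 ∨ z ^ P = 1 := by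
  induction R using Multiset.induction_on with
  | empty => exact ⟨1, one_pos, by simp⟩
  | cons z R ih =>
    obtain ⟨P, hP, h⟩ := ih (fun y hy => hR y (Multiset.mem_cons_of_mem hy))
    rcases hR z (Multiset.mem_cons_self _ _) with hz | ⟨n, hn, hz⟩
    · refine ⟨P, hP, fun y hy => ?_⟩
      rcases Multiset.mem_cons.1 hy with rfl | hy
      · exact Or.inl hz
      · exact h y hy
    · refine ⟨P * n, Nat.mul_pos hP hn, fun y hy => ?_⟩
      rcases Multiset.mem_cons.1 hy with rfl | hy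
      · right
        rw [mul_comm, pow_mul, hz, one_pow]
      · rcases h y hy with h1 | h1
        · exact Or.inl h1
        · right
          rw [pow_mul, h1, one_pow]

lemma good_dvd (R : Multiset K) (P : ℕ) (hR : ∀ z ∈ R, z = 0 ∨ z ^ P = 1) :
    (R.map (X - C ·)).prod ∣ (X : K[X]) ^ R.card * (X ^ P - 1) ^ R.card := by
  rw [← mul_pow]
  induction R using Multiset.induction_on with
  | empty => simp
  | cons z R ih =>
    rw [Multiset.map_cons, Multiset.prod_cons, Multiset.card_cons, pow_succ']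
    refine mul_dvd_mul ?_ (ih (fun y hy => hR y (Multiset.mem_cons_of_mem hy)))
    rw [dvd_iff_isRoot]
    rcases hR z (Multiset.mem_cons_self _ _) with h | h <;> simp [h]

end

def D (P : ℕ) (w : ℕ → ℤ) : ℕ → ℤ := fun t => w (t + P) - w t

def Gz (w : ℕ → ℤ) : Prop := ∃ C : ℝ, ∀ t : ℕ, |(w t : ℝ)| ≤ C * (t + 1)

lemma Gz.D {w : ℕ → ℤ} (h : Gz w) (P : ℕ) : Gz (D P w) := by
  obtain ⟨C, hC⟩ := h
  have hC0 : 0 ≤ C := by
    have := hC 0
    have h2 := abs_nonneg (w 0 : ℝ)
    simp only [Nat.cast_zero, zero_add, mul_one] at this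
    linarith
  refine ⟨C * (P + 1) + C, fun t => ?_⟩
  have h1 := hC (t + P)
  have h2 := hC t
  have h3 : (0 : ℝ) ≤ P := Nat.cast_nonneg P
  have h4 : (0 : ℝ) ≤ t := Nat.cast_nonneg t
  simp only [MP_32f763_nt.D]
  push_cast at h1 ⊢
  refine (abs_sub _ _).trans ?_
  nlinarith [mul_nonneg hC0 (mul_nonneg h3 h4)]

lemma lin_of_D2 {P d : ℕ} {w : ℕ → ℤ} (h : ∀ t, d ≤ t → D P (D P w) t = 0) (t : ℕ) (ht : d ≤ t)
    (x : ℕ) : D P w (t + P * x) = D P w t ∧ w (t + P * x) = w t + x * D P w t := by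
  induction x with
  | zero => simp
  | succ x ih =>
    have h1 := h (t + P * x) (by omega)
    have e : t + P * (x + 1) = t + P * x + P := by ring
    rw [e]
    have h2 : D P w (t + P * x + P) - D P w (t + P * x) = 0 := h1
    have h3 : D P w (t + P * x) = w (t + P * x + P) - w (t + P * x) := rfl
    push_cast
    constructor
    · linarith [ih.1]
    · linarith [ih.1, ih.2]

lemma D3 {P d : ℕ} {w : ℕ → ℤ} (hg : Gz w) (h : ∀ t, d ≤ t → D P (D P (D P w)) t = 0) (t : ℕ)
    (ht : d ≤ t) : D P (D P w) t = 0 := by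
  obtain ⟨C, hC⟩ := hg
  set c := D P (D P w) t with hc
  have h1 : ∀ x : ℕ, 2 * w (t + P * x) = 2 * w t + 2 * x * D P w t + x * (x - 1) * c := by
    intro x
    induction x with
    | zero => simp
    | succ x ih =>
      have h2 := (lin_of_D2 h t ht x).2
      have e : t + P * (x + 1) = t + P * x + P := by ring
      have h3 : D P w (t + P * x) = w (t + P * x + P) - w (t + P * x) := rfl
      rw [e]
      push_cast
      rw [← hc] at h2
      linarith
  by_contra hne
  have hc1 : (1 : ℝ) ≤ |(c : ℝ)| := by exact_mod_cast Int.one_le_abs hne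
  obtain ⟨x, hx⟩ := exists_nat_gt
    (2 * |C| * (t + P + 1) + 2 * |(w t : ℝ)| + 2 * |(D P w t : ℝ)| + 1)
  have h2 : (2 * w (t + P * x) : ℝ) = 2 * w t + 2 * x * D P w t + x * (x - 1) * c := by
    exact_mod_cast h1 x
  have h3 := hC (t + P * x)
  push_cast at h3
  have a1 := abs_nonneg C
  have a2 := abs_nonneg (w t : ℝ)
  have a3 := abs_nonneg (D P w t : ℝ)
  have a4 : (0 : ℝ) ≤ P := Nat.cast_nonneg P
  have a5 : (0 : ℝ) ≤ t := Nat.cast_nonneg t
  have a6 : 0 ≤ 2 * |C| * (t + P + 1) := by positivity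
  have hx1 : (1 : ℝ) < x := by linarith
  have h4 : |(x : ℝ) * (x - 1) * c| ≤ 2 * |(w (t + P * x) : ℝ)| + 2 * |(w t : ℝ)| +
      2 * x * |(D P w t : ℝ)| := by
    have e : (x : ℝ) * (x - 1) * c = 2 * w (t + P * x) - 2 * w t - 2 * x * D P w t := by linarith
    rw [e]
    refine (abs_sub _ _).trans (add_le_add ((abs_sub _ _).trans ?_) ?_)
    · simp [abs_mul]
    · simp [abs_mul]
  have h5 : (x : ℝ) * (x - 1) ≤ |(x : ℝ) * (x - 1) * c| := by
    rw [abs_mul, abs_of_nonneg (by nlinarith)]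
    nlinarith [mul_nonneg (by linarith : (0 : ℝ) ≤ x) (by linarith : (0 : ℝ) ≤ x - 1)]
  have h6 : C * (t + P * x + 1) ≤ |C| * (t + P + 1) * x := by
    have b1 : (t : ℝ) + P * x + 1 ≤ (t + P + 1) * x := by nlinarith
    have b2 : (0 : ℝ) ≤ t + P * x + 1 := by positivity
    calc C * (t + P * x + 1) ≤ |C| * (t + P * x + 1) :=
          mul_le_mul_of_nonneg_right (le_abs_self C) b2
      _ ≤ |C| * ((t + P + 1) * x) := mul_le_mul_of_nonneg_left b1 a1
      _ = _ := by ring
  nlinarith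

lemma DN {P d : ℕ} (j : ℕ) : ∀ {w : ℕ → ℤ}, Gz w → (∀ t, d ≤ t → (D P)^[j + 2] w t = 0) →
    ∀ t, d ≤ t → D P (D P w) t = 0 := by
  induction j with
  | zero => intro w _ h; exact h
  | succ j ih =>
    intro w hg h
    exact D3 hg (ih (hg.D P) h)

lemma aeval_D {K : Type} [Field K] (P j : ℕ) (w : ℕ → ℤ) :
    aeval (sh K) ((X ^ P - 1 : K[X]) ^ j) (fun t => (w t : K)) = fun t => ((D P)^[j] w t : K) := by
  induction j generalizing w with
  | zero => simp
  | succ j ih =>
    rw [pow_succ, map_mul, Module.End.mul_apply, Function.iterate_succ_apply, ← ih]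
    congr 1
    funext t
    simp [sh_pow, D]

theorem quasi (F : Set (ℕ → ℤ)) (p : ℤ[X]) (hp : p.Monic)
    (hrec : ∀ s ∈ F, ∀ t, ∑ i ∈ Finset.range (p.natDegree + 1), p.coeff i * s (t + i) = 0)
    (hg : ∀ s ∈ F, Gz s) : ∃ P d, 0 < P ∧ ∀ s ∈ F, ∀ t, d ≤ t → ∀ x : ℕ,
      s (t + P * x) = s t + x * (s (t + P) - s t) := by
  classical
  let K := (p.map (Int.castRingHom ℚ)).SplittingField
  have : NumberField K := {}
  let q : K[X] := p.map (Int.castRingHom K)
  have hq : q.Monic := hp.map _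
  have hs : q.Splits := by
    have := Polynomial.SplittingField.splits (p.map (Int.castRingHom ℚ))
    rw [Polynomial.map_map] at this
    have e : q = p.map ((algebraMap ℚ K).comp (Int.castRingHom ℚ)) := by
      congr 1
    rw [e]
    exact this
  let bad : K → Prop := fun z => ∃ φ : K →+* ℂ, 1 < ‖φ z‖
  let R := q.roots.filter (fun z => ¬ bad z)
  have hR : ∀ z ∈ R, z = 0 ∨ ∃ n, 0 < n ∧ z ^ n = 1 := by
    intro z hz
    obtain ⟨h1, h2⟩ := Multiset.mem_filter.1 hz
    by_cases h0 : z = 0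
    · exact Or.inl h0
    · right
      have hi : IsIntegral ℤ z := by
        refine ⟨p, hp, ?_⟩
        have := (mem_roots hq.ne_zero).1 h1
        rw [IsRoot, eval_map] at this
        exact this
      obtain ⟨n, hn, h⟩ := NumberField.Embeddings.pow_eq_one_of_norm_le_one K ℂ h0 hi
        (fun φ => not_lt.1 fun h => h2 ⟨φ, h⟩)
      exact ⟨n, hn, h⟩
  obtain ⟨P, hP, hRP⟩ := common R hR
  obtain ⟨g, hg'⟩ := good_dvd R P hRP
  refine ⟨P, R.card, hP, fun s hs' t ht x => ?_⟩
  have hGr : Gr (fun t => (s t : K)) := by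
    intro φ
    obtain ⟨C, hC⟩ := hg s hs'
    refine ⟨C, fun t => ?_⟩
    rw [map_intCast φ, Complex.norm_intCast]
    exact hC t
  have h0 : aeval (sh K) q (fun t => (s t : K)) = 0 := by
    funext t
    rw [aeval_sh, hp.natDegree_map]
    have := congrArg (Int.castRingHom K) (hrec s hs' t)
    rw [map_sum, map_zero] at this
    refine Eq.trans (Finset.sum_congr rfl fun i _ => ?_) this
    rw [map_mul, coeff_map]
    rfl
  have h1 : aeval (sh K) (R.map (X - C ·)).prod (fun t => (s t : K)) = 0 := by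
    refine bad_all (q.roots.filter bad) (fun z hz => (Multiset.mem_filter.1 hz).2) (hGr.aeval _) ?_
    rw [← Module.End.mul_apply, ← map_mul, ← Multiset.prod_add, ← Multiset.map_add,
      Multiset.filter_add_not, ← hs.eq_prod_roots_of_monic hq]
    exact h0
  have h2 : aeval (sh K) ((X : K[X]) ^ R.card * (X ^ P - 1) ^ (R.card + 2))
      (fun t => (s t : K)) = 0 := by
    rw [pow_add, ← mul_assoc, hg', mul_assoc, mul_comm, map_mul, Module.End.mul_apply, h1, map_zero]
  rw [map_mul, Module.End.mul_apply, aeval_D] at h2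
  have h3 : ∀ t, R.card ≤ t → (D P)^[R.card + 2] s t = 0 := by
    intro t ht
    obtain ⟨u, rfl⟩ := Nat.exists_eq_add_of_le' ht
    have := congrFun h2 u
    rw [map_pow, aeval_X, sh_pow, Pi.zero_apply] at this
    exact Int.cast_eq_zero.1 this
  exact (lin_of_D2 (DN _ (hg s hs') h3) t ht x).2

end Pool.Agent.H.MP_32f763_nt
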