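import Pool.Agent.H.MP_32f763_nt.CL
import Pool.Agent.H.MP_32f763_nt.Rec

namespace Pool.Agent.H.MP_32f763_nt

open Polynomial

def ker (k : ℕ) : Set (ℕ → ℤ) :=
  {u | ∃ e r, r < k ^ e ∧ u = fun n => (len (k ^ e * n + r) 1 : ℤ)}

def T (k : ℕ) : Module.End ℤ (ℕ → ℤ) where
  toFun u := fun n => u (k * n)
  map_add' _ _ := rfl
  map_smul' _ _ := rfl

lemma T_mem {k : ℕ} (hk : 0 < k) :
    ∀ u ∈ Submodule.span ℤ (ker k), T k u ∈ Submodule.span ℤ (ker k) := by
  intro u hu
  have : Submodule.map (T k) (Submodule.span ℤ (ker k)) ≤ Submodule.span ℤ (ker k) := by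
    rw [Submodule.map_span_le]
    rintro _ ⟨e, r, hr, rfl⟩
    refine Submodule.subset_span ⟨e + 1, r, ?_, ?_⟩
    · rw [pow_succ]
      exact hr.trans_le (Nat.le_mul_of_pos_right _ hk)
    · funext n
      change (len (k ^ e * (k * n) + r) 1 : ℤ) = _
      rw [pow_succ, mul_assoc]
  exact this ⟨u, hu, rfl⟩

lemma lin {k : ℕ} (hk : 0 < k) (h : (Submodule.span ℤ (ker k)).FG) :
    ∃ P d, 0 < P ∧ ∀ e r Y, r < k ^ e → ∀ t, d ≤ t → ∀ x : ℕ,
      (len (k ^ e * (k ^ (t + P * x) * Y) + r) 1 : ℤ) = len (k ^ e * (k ^ t * Y) + r) 1 +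
        x * ((len (k ^ e * (k ^ (t + P) * Y) + r) 1 : ℤ) - len (k ^ e * (k ^ t * Y) + r) 1) := by
  have : Module.Finite ℤ (Submodule.span ℤ (ker k)) := Module.Finite.iff_fg.2 h
  let S : Module.End ℤ (Submodule.span ℤ (ker k)) := (T k).restrict (T_mem hk)
  obtain ⟨p, hp, hpS⟩ := LinearMap.exists_monic_and_aeval_eq_zero ℤ S
  have hpow : ∀ i (u : Submodule.span ℤ (ker k)) n, ((S ^ i) u : ℕ → ℤ) n = (u : ℕ → ℤ) (k ^ i * n) := by
    intro i
    induction i with
    | zero => intro u n; simp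
    | succ i ih =>
      intro u n
      rw [pow_succ, Module.End.mul_apply, ih, pow_succ', mul_assoc]
      rfl
  obtain ⟨P, d, hP, hF⟩ := quasi
    {w | ∃ e r Y, r < k ^ e ∧ w = fun t => (len (k ^ e * (k ^ t * Y) + r) 1 : ℤ)} p hp
    (by
      rintro _ ⟨e, r, Y, hr, rfl⟩ t
      let u : Submodule.span ℤ (ker k) :=
        ⟨fun n => (len (k ^ e * n + r) 1 : ℤ), Submodule.subset_span ⟨e, r, hr, rfl⟩⟩
      have h1 : aeval S p u = 0 := by rw [hpS]; rfl
      rw [aeval_eq_sum_range, LinearMap.sum_apply] at h1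
      have h2 := congrFun (congrArg Subtype.val h1) (k ^ t * Y)
      rw [Submodule.coe_sum, Finset.sum_apply] at h2
      refine Eq.trans (Finset.sum_congr rfl fun i _ => ?_) h2
      rw [LinearMap.smul_apply, Submodule.coe_smul, Pi.smul_apply, hpow, smul_eq_mul]
      simp only [u]
      rw [pow_add, mul_comm (k ^ t), mul_assoc])
    (by
      rintro _ ⟨e, r, Y, hr, rfl⟩
      refine ⟨((3 * (k * e + k + Y + 1) : ℕ) : ℝ), fun t => ?_⟩
      have h1 : k ^ e * (k ^ t * Y) + r < 2 ^ (k * (e + t) + (Y + 1)) := by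
        have a1 : k ^ (e + t) ≤ 2 ^ (k * (e + t)) := by
          rw [pow_mul]
          exact Nat.pow_le_pow_left Nat.lt_two_pow_self.le _
        have a2 : Y + 1 < 2 ^ (Y + 1) := Nat.lt_two_pow_self
        have a3 : k ^ e ≤ k ^ (e + t) := Nat.pow_le_pow_right hk (by omega)
        have a4 : k ^ e * (k ^ t * Y) = k ^ (e + t) * Y := by ring
        rw [a4, pow_add 2]
        calc k ^ (e + t) * Y + r < k ^ (e + t) * (Y + 1) := by rw [mul_add]; omega
          _ ≤ _ := Nat.mul_le_mul a1 a2.le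
      have h2 := len_le _ _ 1 h1
      have h3 : len (k ^ e * (k ^ t * Y) + r) 1 ≤ 3 * (k * e + k + Y + 1) * (t + 1) := by
        refine h2.trans ?_
        nlinarith [Nat.zero_le (k * e * t), Nat.zero_le (Y * t), Nat.zero_le t, Nat.zero_le k]
      simp only [Int.cast_natCast, Nat.abs_cast]
      exact_mod_cast h3)
  exact ⟨P, d, hP, fun e r Y hr t ht x => hF _ ⟨e, r, Y, hr, rfl⟩ t ht x⟩

lemma val1 (j : ℕ) : len (2 ^ (j + 4) * (3 * 2 ^ (j + 3)) + (2 ^ (j + 4) - 1)) 1 = 2 * j + 10 := by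
  obtain ⟨y, hy⟩ : ∃ y, 2 ^ j = y + 1 := ⟨2 ^ j - 1, by have : 0 < 2 ^ j := by positivity
                                                        omega⟩
  have e0 : 2 ^ (j + 4) - 1 = 16 * y + 15 := by rw [pow_add, hy]; omega
  have h1 : len (2 ^ (j + 4) * (3 * 2 ^ (j + 3)) + (16 * y + 15)) 1 =
      1 + len (256 * (y + 1) ^ 2) (128 * (y + 1) ^ 2 + 16 * y + 15) :=
    len_step' (j + j + 8) (by norm_num) (by positivity) (by simp only [pow_add, hy]; ring)
      (by nlinarith) (by simp only [pow_add, hy]; ring)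
  have h2 : len (256 * (y + 1) ^ 2) (128 * (y + 1) ^ 2 + 16 * y + 15) =
      1 + len (128 * (y + 1) ^ 2 + 16 * y + 15) (128 * y ^ 2 + 240 * y + 113) :=
    len_step' 0 (by positivity) (by positivity) (by ring) (by nlinarith) (by ring)
  have h3 : len (128 * (y + 1) ^ 2 + 16 * y + 15) (128 * y ^ 2 + 240 * y + 113) =
      1 + len (128 * y ^ 2 + 240 * y + 113) (32 * y + 30) :=
    len_step' 0 (by positivity) (by positivity) (by ring) (by nlinarith) (by ring)
  have h4 : len (128 * y ^ 2 + 240 * y + 113) (32 * y + 30) =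
      1 + len (64 * y ^ 2 + 124 * y + 60) (64 * y ^ 2 + 116 * y + 53) :=
    len_step' (j + 1) (by positivity) (by positivity) (by simp only [pow_add, hy]; ring)
      (by nlinarith) (by ring)
  have h5 : len (64 * y ^ 2 + 124 * y + 60) (64 * y ^ 2 + 116 * y + 53) =
      1 + len (64 * y ^ 2 + 116 * y + 53) (8 * y + 7) :=
    len_step' 0 (by positivity) (by positivity) (by ring) (by nlinarith) (by ring)
  have h6 : len (64 * y ^ 2 + 116 * y + 53) (8 * y + 7) =
      1 + len (32 * y ^ 2 + 60 * y + 28) (32 * y ^ 2 + 56 * y + 25) :=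
    len_step' (j + 2) (by positivity) (by positivity) (by simp only [pow_add, hy]; ring)
      (by nlinarith) (by ring)
  have h7 : len (32 * y ^ 2 + 60 * y + 28) (32 * y ^ 2 + 56 * y + 25) =
      1 + len (32 * y ^ 2 + 56 * y + 25) (4 * y + 3) :=
    len_step' 0 (by positivity) (by positivity) (by ring) (by nlinarith) (by ring)
  have h8 : len (32 * y ^ 2 + 56 * y + 25) (4 * y + 3) =
      1 + len (2 ^ (j + 3) * (4 * y + 3)) 1 :=
    len_step' (j + 3) (by positivity) (by positivity) rfl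
      (by simp only [pow_add, hy]; nlinarith) (by simp only [pow_add, hy]; ring)
  have h9 := len_ones j (4 * y + 3) (by simp only [pow_add, hy]; ring) (j + 3)
  rw [e0]
  omega

lemma val2 (j : ℕ) :
    len (2 ^ (j + 4) * (3 * 2 ^ (j + j + 7)) + (2 ^ (j + 4) - 1)) 1 = 2 * j + 10 := by
  obtain ⟨y, hy⟩ : ∃ y, 2 ^ j = y + 1 := ⟨2 ^ j - 1, by have : 0 < 2 ^ j := by positivity
                                                        omega⟩
  have e0 : 2 ^ (j + 4) - 1 = 16 * y + 15 := by rw [pow_add, hy]; omega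
  have h1 : len (2 ^ (j + 4) * (3 * 2 ^ (j + j + 7)) + (16 * y + 15)) 1 =
      1 + len (4096 * (y + 1) ^ 3) (2048 * (y + 1) ^ 3 + 16 * y + 15) :=
    len_step' (j + j + j + 12) (by norm_num) (by positivity) (by simp only [pow_add, hy]; ring)
      (by nlinarith [Nat.zero_le (y ^ 3), Nat.zero_le (y ^ 2)]) (by simp only [pow_add, hy]; ring)
  have h2 : len (4096 * (y + 1) ^ 3) (2048 * (y + 1) ^ 3 + 16 * y + 15) =
      1 + len (2048 * (y + 1) ^ 3 + 16 * y + 15) (2048 * y ^ 3 + 6144 * y ^ 2 + 6128 * y + 2033) :=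
    len_step' 0 (by positivity) (by positivity) (by ring)
      (by nlinarith [Nat.zero_le (y ^ 3), Nat.zero_le (y ^ 2)]) (by ring)
  have h3 : len (2048 * (y + 1) ^ 3 + 16 * y + 15) (2048 * y ^ 3 + 6144 * y ^ 2 + 6128 * y + 2033) =
      1 + len (2048 * y ^ 3 + 6144 * y ^ 2 + 6128 * y + 2033) (32 * y + 30) :=
    len_step' 0 (by positivity) (by positivity) (by ring)
      (by nlinarith [Nat.zero_le (y ^ 3), Nat.zero_le (y ^ 2)]) (by ring)
  have h4 : len (2048 * y ^ 3 + 6144 * y ^ 2 + 6128 * y + 2033) (32 * y + 30) =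
      1 + len (2048 * y ^ 3 + 6016 * y ^ 2 + 5888 * y + 1920) (128 * y ^ 2 + 240 * y + 113) :=
    len_step' (j + j + 6) (by positivity) (by positivity) (by simp only [pow_add, hy]; ring)
      (by nlinarith [Nat.zero_le (y ^ 3), Nat.zero_le (y ^ 2)]) (by ring)
  have h5 : len (2048 * y ^ 3 + 6016 * y ^ 2 + 5888 * y + 1920) (128 * y ^ 2 + 240 * y + 113) =
      1 + len (2048 * y ^ 3 + 5888 * y ^ 2 + 5648 * y + 1808) (128 * y ^ 2 + 240 * y + 112) :=
    len_step' (j + 4) (by positivity) (by positivity) (by simp only [pow_add, hy]; ring)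
      (by nlinarith [Nat.zero_le (y ^ 3), Nat.zero_le (y ^ 2)]) (by ring)
  have h6 : len (2048 * y ^ 3 + 5888 * y ^ 2 + 5648 * y + 1808) (128 * y ^ 2 + 240 * y + 112) =
      1 + len (2 ^ (j + 4) * (2 ^ (j + 4) * (8 * y + 7))) (2 ^ (j + 4) * 1) :=
    len_step' (j + 4) (by positivity) (by positivity) (by simp only [pow_add, hy]; ring)
      (by simp only [pow_add, hy]; nlinarith [Nat.zero_le (y ^ 3), Nat.zero_le (y ^ 2)])
      (by simp only [pow_add, hy]; ring)
  rw [len_mul _ (by positivity)] at h6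
  have h9 := len_ones (j + 1) (8 * y + 7) (by simp only [pow_add, hy]; ring) (j + 4)
  rw [e0]
  omega

lemma lower (a b : ℕ) :
    b + 2 ≤ 2 ^ len (2 ^ (a + 1) * (3 * 2 ^ (b + 1)) + (2 ^ (a + 1) - 1)) 1 := by
  obtain ⟨y, hy⟩ : ∃ y, 2 ^ a = y + 1 := ⟨2 ^ a - 1, by have : 0 < 2 ^ a := by positivity
                                                        omega⟩
  obtain ⟨z, hz⟩ : ∃ z, 2 ^ b = z + 1 := ⟨2 ^ b - 1, by have : 0 < 2 ^ b := by positivity
                                                        omega⟩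
  have e0 : 2 ^ (a + 1) - 1 = 2 * y + 1 := by rw [pow_add, hy]; omega
  have h1 : len (2 ^ (a + 1) * (3 * 2 ^ (b + 1)) + (2 * y + 1)) 1 =
      1 + len (8 * ((y + 1) * (z + 1))) (4 * ((y + 1) * (z + 1)) + 2 * y + 1) :=
    len_step' (a + b + 3) (by norm_num) (by positivity) (by simp only [pow_add, hy, hz]; ring)
      (by nlinarith [Nat.zero_le (y * z)]) (by simp only [pow_add, hy, hz]; ring)
  have h2 : len (8 * ((y + 1) * (z + 1))) (4 * ((y + 1) * (z + 1)) + 2 * y + 1) =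
      1 + len (4 * ((y + 1) * (z + 1)) + 2 * y + 1) (2 * (2 ^ a * (2 * z + 1)) + 1) :=
    len_step' 0 (by positivity) (by positivity) (by ring)
      (by rw [hy]; nlinarith [Nat.zero_le (y * z)]) (by rw [hy]; ring)
  have h3 := (s_le _ (4 * ((y + 1) * (z + 1)) + 2 * y + 1) (2 * (2 ^ a * (2 * z + 1)) + 1) le_rfl
    (by positivity) (by rw [hy]; nlinarith [Nat.zero_le (y * z)]) (by
      intro π hπ h1 h2
      have h3 := dvd_add h1 h2
      have e : 4 * ((y + 1) * (z + 1)) + 2 * y + 1 + (2 * (2 ^ a * (2 * z + 1)) + 1) =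
          2 ^ (a + b + 3) := by simp only [pow_add, hy, hz]; ring
      rw [e] at h3
      exact (Nat.prime_dvd_prime_iff_eq hπ Nat.prime_two).1 (hπ.dvd_of_dvd_pow h3))).2
  rw [s_odd, s_pow_mul, s_ones (b + 1) (2 * z + 1) (by rw [pow_succ, hz]; ring)] at h3
  rw [e0, h1, h2]
  exact h3.trans (Nat.pow_le_pow_right (by norm_num) (by omega))

theorem not_fg {k : ℕ} (hk : 2 ≤ k) : ¬ (Submodule.span ℤ (ker k)).FG := by
  intro h
  obtain ⟨P, d, hP, hl⟩ := lin (by omega) h
  obtain ⟨α, m, hm, hkm⟩ := Nat.exists_eq_two_pow_mul_odd (n := k) (by omega)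
  by_cases hm1 : m = 1
  · -- `k` is a power of two
    subst hm1
    rw [mul_one] at hkm
    obtain ⟨σ, rfl⟩ : ∃ σ, α = σ + 1 := ⟨α - 1, by
      rcases Nat.eq_zero_or_pos α with rfl | h0
      · simp at hkm; omega
      · omega⟩
    obtain ⟨t, ht⟩ : ∃ t, P * (d + 4) = t + 1 := ⟨P * (d + 4) - 1, by
      have := Nat.mul_pos hP (show 0 < d + 4 by omega); omega⟩
    have htd : d + 3 ≤ t := by nlinarith
    obtain ⟨j, hj⟩ : ∃ j, (σ + 1) * (t + 1) = j + 4 := ⟨(σ + 1) * (t + 1) - 4, by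
      have : 4 ≤ (σ + 1) * (t + 1) := by nlinarith
      omega⟩
    have ek : k ^ (t + 1) = 2 ^ (j + 4) := by rw [hkm, ← pow_mul, hj]
    have eY : ∀ u, k ^ u * (3 * 2 ^ σ) = 3 * 2 ^ ((σ + 1) * u + σ) := by
      intro u
      rw [hkm, ← pow_mul]; ring
    have H := hl (t + 1) (2 ^ (j + 4) - 1) (3 * 2 ^ σ)
      (by rw [ek]; have : 0 < 2 ^ (j + 4) := by positivity
          omega) t (by omega)
    simp only [ek, eY] at H
    have e1 : (σ + 1) * t + σ = j + 3 := by nlinarith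
    have e2 : (σ + 1) * (t + P * (d + 4)) + σ = j + j + 7 := by rw [ht]; nlinarith
    have H1 := H (d + 4)
    rw [e1, e2, val1, val2] at H1
    rw [e1, val1] at H
    have hB : (len (2 ^ (j + 4) * (3 * 2 ^ ((σ + 1) * (t + P) + σ)) + (2 ^ (j + 4) - 1)) 1 : ℤ) -
        ((2 * j + 10 : ℕ) : ℤ) = 0 := by
      have h0 : ((d + 4 : ℕ) : ℤ) ≠ 0 := by positivity
      exact (mul_eq_zero.1 (by linarith)).resolve_left h0
    have H2 := H (2 ^ (2 * j + 10))
    rw [hB, mul_zero, add_zero] at H2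
    obtain ⟨b, hb⟩ : ∃ b, (σ + 1) * (t + P * 2 ^ (2 * j + 10)) + σ = b + 1 :=
      ⟨(σ + 1) * (t + P * 2 ^ (2 * j + 10)) + σ - 1, by
        have : 0 < (σ + 1) * (t + P * 2 ^ (2 * j + 10)) := Nat.mul_pos (by omega) (by omega)
        omega⟩
    have H3 := lower (j + 3) b
    rw [hb] at H2
    rw [Nat.cast_injective (R := ℤ) H2] at H3
    have a1 : 2 ^ (2 * j + 10) ≤ P * 2 ^ (2 * j + 10) := Nat.le_mul_of_pos_left _ hP
    have a2 : t + P * 2 ^ (2 * j + 10) ≤ (σ + 1) * (t + P * 2 ^ (2 * j + 10)) :=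
      Nat.le_mul_of_pos_left _ (by omega)
    omega
  · -- `k` has an odd part `m > 1`
    have hm3 : 2 ≤ m := by
      obtain ⟨c, rfl⟩ := hm
      omega
    set t := d + P with ht
    set e := α * t + 1 with he
    have hr : 2 ^ (α * (e + t)) < k ^ e := by
      rw [hkm, mul_pow, ← pow_mul, mul_add, pow_add]
      refine Nat.mul_lt_mul_of_pos_left ?_ (by positivity)
      calc 2 ^ (α * t) < 2 ^ e := Nat.pow_lt_pow_right (by norm_num) (by omega)
        _ ≤ m ^ e := Nat.pow_le_pow_left hm3 _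
    have hc : Nat.Coprime 2 (m ^ (e + t)) :=
      Nat.Coprime.pow_right _ ((Nat.coprime_two_left).2 hm)
    have hφ : 0 < Nat.totient (m ^ (e + t)) := Nat.totient_pos.2 (by positivity)
    have h1 : 1 < 2 ^ Nat.totient (m ^ (e + t)) := Nat.one_lt_two_pow hφ.ne'
    obtain ⟨Y, hY⟩ := (Nat.modEq_iff_dvd' h1.le).1 (Nat.ModEq.pow_totient hc).symm
    have hY0 : 0 < Y := by
      rcases Nat.eq_zero_or_pos Y with rfl | h0
      · omega
      · exact h0
    have hN : k ^ e * (k ^ t * Y) + 2 ^ (α * (e + t)) =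
        2 ^ (α * (e + t) + Nat.totient (m ^ (e + t))) * 1 := by
      have : 2 ^ Nat.totient (m ^ (e + t)) = m ^ (e + t) * Y + 1 := by omega
      rw [pow_add 2 (α * (e + t)), this, ← mul_assoc, ← pow_add, hkm, mul_pow, ← pow_mul]
      ring
    set r := 2 ^ (α * (e + t)) with hrdef
    have hr0 : 0 < r := by positivity
    have g1 : len (k ^ e * (k ^ t * Y) + r) 1 = 1 := by rw [hN, len_end _ one_pos]
    have gp : ∀ u, (1 : ℤ) ≤ len (k ^ e * (k ^ u * Y) + r) 1 := fun u => by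
      exact_mod_cast len_pos one_pos (by omega)
    have H := hl e r Y hr d le_rfl
    rw [← ht, g1] at H
    have H2 := H 2
    have a1 := gp d
    have a2 := gp (d + P * 2)
    have hd : (len (k ^ e * (k ^ d * Y) + r) 1 : ℤ) = 1 := by
      push_cast at H2
      linarith
    have all : ∀ x, ∃ j, k ^ e * (k ^ (d + P * x) * Y) + r = 2 ^ j := by
      intro x
      apply len_one
      have := H x
      rw [hd] at this
      push_cast at this
      rw [mul_zero, add_zero] at this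
      exact_mod_cast this
    have hkP : 2 ≤ k ^ P := by
      calc 2 ≤ k := hk
        _ = k ^ 1 := (pow_one k).symm
        _ ≤ k ^ P := Nat.pow_le_pow_right (by omega) hP
    obtain ⟨j, hj⟩ := all (r * k ^ P)
    obtain ⟨j', hj'⟩ := all (r * k ^ P + 1)
    set A := k ^ e * (k ^ (d + P * (r * k ^ P)) * Y) with hA
    have eA : k ^ e * (k ^ (d + P * (r * k ^ P + 1)) * Y) = k ^ P * A := by rw [hA]; ring
    rw [eA] at hj'
    have hbig : r * k ^ P < A := by
      calc r * k ^ P ≤ d + P * (r * k ^ P) := by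
            have := Nat.le_mul_of_pos_left (r * k ^ P) hP
            omega
        _ < k ^ (d + P * (r * k ^ P)) := Nat.lt_pow_self (by omega)
        _ ≤ k ^ (d + P * (r * k ^ P)) * Y := Nat.le_mul_of_pos_right _ hY0
        _ ≤ A := Nat.le_mul_of_pos_left _ (by positivity)
    have hjj : j ≤ j' := by
      have : 2 ^ j ≤ 2 ^ j' := by
        rw [← hj, ← hj']
        have := Nat.le_mul_of_pos_left A (show 0 < k ^ P by omega)
        omega
      exact (Nat.pow_le_pow_iff_right (by norm_num)).1 this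
    obtain ⟨c, hc'⟩ : ∃ c, k ^ P = c + 1 := ⟨k ^ P - 1, by omega⟩
    have hdv : 2 ^ j ∣ c * r := by
      have h5 : 2 ^ j' + c * r = k ^ P * 2 ^ j := by rw [← hj, ← hj', hc']; ring
      have h6 : 2 ^ j ∣ 2 ^ j' + c * r := by rw [h5]; exact Dvd.intro_left _ rfl
      exact (Nat.dvd_add_right (pow_dvd_pow 2 hjj)).1 h6
    have := Nat.le_of_dvd (Nat.mul_pos (by omega) hr0) hdv
    rw [hc'] at hbig
    nlinarith

end Pool.Agent.H.MP_32f763_nt
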